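import Pool.Agent.Y6.K.Defs

/-! Statements of the steps (Euler equations with an additional skew-adjoint linear term). -/

open Set Filter Topology MeasureTheory

set_option autoImplicit false

namespace Pool.Agent.Y6.K

open Pool.Agent.Y5 Pool.Agent.Y5.D

/-! ### Abstract systems -/

/-- Averaging in a finite group of modes rotated with the speed `S`. -/
def S_AVG : Prop := ∀ (b : ℝ) (n : ℕ), 0 ≤ b → ∃ C : ℝ, 1 ≤ C ∧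
  ∀ (ι : Type) [Fintype ι] (σ : ι → ι) (τ : ι → ℝ) (S θ h η : ℝ) (v H H' E : ι → ℝ → ℝ),
    Fintype.card ι ≤ n → (∀ j, σ (σ j) = j) → (∀ j, τ (σ j) = -τ j) →
    (∀ j, τ j = 0 ∨ τ j ^ 2 = 1) → 1 ≤ S → 0 ≤ θ → θ ≤ 60 → 0 ≤ h → 0 ≤ η →
    (∀ j, ∀ t ∈ Icc 0 θ,
      HasDerivWithinAt (v j) (S * τ j * v (σ j) t + H j t + E j t) (Icc 0 θ) t) →
    (∀ j, ∀ t ∈ Icc 0 θ, HasDerivWithinAt (H j) (H' j t) (Icc 0 θ) t) →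
    (∀ j, ∀ t ∈ Icc 0 θ, |H j t| ≤ h ∧ |H' j t| ≤ h) →
    (∀ j, τ j = 0 → ∀ t ∈ Icc 0 θ, H j t = 0) →
    (∀ j, ∀ t ∈ Icc 0 θ, |E j t| ≤ b * ∑ i, |v i t| + η) → (∀ j, v j 0 = 0) →
    ∀ j, ∀ t ∈ Icc 0 θ, |v j t| ≤ C * (h / S + η)

/-- Existence for the truncated systems. -/
def S_GAL : Prop := ∀ (J : Type) (o : J → ℕ) (σ : J → J) (τ : J → ℝ) (A : ℕ → ℝ)
  (c : Ix J → Ix J → Ix J → ℝ) (S : ℕ → ℝ), Ker o σ τ A c → ∀ N, ∃ z, TSol S o σ τ c N z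

/-- Decomposition of the quadratic term. -/
def S_DEC : Prop := ∀ (J : Type) (o : J → ℕ) (σ : J → J) (τ : J → ℝ) (A : ℕ → ℝ)
  (c : Ix J → Ix J → Ix J → ℝ), Ker o σ τ A c → ∃ R : ℕ → ℝ, (∀ m, 1 ≤ R m) ∧
    (∀ z, Adm z → ∀ i, Summable (fun p : Ix J × Ix J => |c i p.1 p.2 * z p.1 * z p.2|) ∧
      |qd c z i| ≤ R (lv o i)) ∧
    (∀ w P, ∃ Q : Finset (Ix J × Ix J),
      (∀ p ∈ Q, ∀ j, p.1 = Sum.inr j ∨ p.2 = Sum.inr j → o j < P) ∧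
      (τ w = 0 → P ≤ o w → Q = ∅) ∧
      ∀ z, Adm z → |qd c z (Sum.inr w) - ∑ p ∈ Q, c (Sum.inr w) p.1 p.2 * z p.1 * z p.2|
        ≤ R (o w) * tail o P z) ∧
    ∀ n z, Adm z → |qd c z (Sum.inl n) - cvf A (fun m => z (Sum.inl m)) n|
        ≤ R n * tail o (n - 1) z

/-- The other modes are as small as we like if the speeds are chosen recursively. -/
def S_BOOT : Prop := ∀ (J : Type) (o : J → ℕ) (σ : J → J) (τ : J → ℝ) (A : ℕ → ℝ)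
  (c : Ix J → Ix J → Ix J → ℝ) (β : ℕ → ℝ), Ker o σ τ A c → (∀ m, 0 < β m) →
  ∃ S : ℕ → ℝ, (∀ m, 1 ≤ S m) ∧ ∀ N z, TSol S o σ τ c N z →
    ∀ j, ∀ t ∈ Icc (0 : ℝ) 60, |z (Sum.inr j) t| ≤ β (o j)

/-- Limits of the solutions of the truncated systems. -/
def S_LIM : Prop := ∀ (J : Type) (o : J → ℕ) (σ : J → J) (τ : J → ℝ) (A : ℕ → ℝ)
  (c : Ix J → Ix J → Ix J → ℝ) (β S : ℕ → ℝ), Ker o σ τ A c → (∀ m, 0 < β m) →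
  Summable (fun j => β (o j)) → ∀ Z : ℕ → Ix J → ℝ → ℝ, (∀ N, TSol S o σ τ c N (Z N)) →
  (∀ N j, ∀ t ∈ Icc (0 : ℝ) 60, |Z N (Sum.inr j) t| ≤ β (o j)) →
  ∀ U : Ultrafilter ℕ, (U : Filter ℕ) ≤ atTop → ∃ z, LSol S o σ τ c β z ∧
    ∀ i, ∀ t ∈ Icc (0 : ℝ) 60, Tendsto (fun N => Z N i t) U (𝓝 (z i t))

/-- Solutions of the main system with a small perturbation `f` on `[a, b]`, for the modes
`≤ N`. -/
structure CSol (A : ℕ → ℝ) (N : ℕ) (a b : ℝ) (x f : ℕ → ℝ → ℝ) : Prop where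
  deriv : ∀ n ≤ N, ∀ t ∈ Icc a b,
    HasDerivWithinAt (x n) (cvf A (fun m => x m t) n + f n t) (Icc a b) t
  pert : ∀ n, ∀ t ∈ Icc a b, |f n t| ≤ φ0 n

/-- Persistence of the decay. -/
def S_PERS : Prop := ∀ A : ℕ → ℝ, Chain A → ∀ (k : ℕ) (M : ℝ), ∃ C : ℝ,
  ∀ (N : ℕ) (θ : ℝ) (x f : ℕ → ℝ → ℝ), 0 ≤ θ → θ ≤ 60 → CSol A N 0 θ x f → x 0 0 = 1 →
    (∀ n, x (n + 1) 0 = 0) → (∀ n, ∀ t ∈ Icc 0 θ, A n * |x n t| ≤ M) →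
    ∀ n ≤ N, ∀ t ∈ Icc 0 θ, A n ^ k * |x n t| ≤ C

/-- Local bounds. -/
def S_LOC : Prop := ∀ A : ℕ → ℝ, Chain A → ∀ X : ℝ, ∃ δ M : ℝ, 0 < δ ∧
  ∀ (N : ℕ) (a b : ℝ) (x f : ℕ → ℝ → ℝ), a ≤ b → b ≤ a + δ → CSol A N a b x f →
    (∀ n, N < n → ∀ t ∈ Icc a b, x n t = 0) → (∀ n, A n ^ 3 * |x n a| ≤ X) →
    ∀ n, ∀ t ∈ Icc a b, A n * |x n t| ≤ M

/-- Regular solutions do not exist for a long time. -/
def S_RIC : Prop := ∀ A : ℕ → ℝ, Chain A → ∀ (θ : ℝ) (x f : ℕ → ℝ → ℝ), 0 ≤ θ → θ ≤ 60 →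
  (∀ N, CSol A N 0 θ x f) → x 0 0 = 1 → (∀ n, x (n + 1) 0 = 0) →
  (∃ M, ∀ n, ∀ t ∈ Icc 0 θ, A n ^ 4 * |x n t| ≤ M) → θ ≤ 30

/-- Choice of the bounds of the other modes. -/
def S_SEQB : Prop := ∀ (J : Type) (o : J → ℕ), (∀ m, {j | o j ≤ m}.Finite) → ∀ g : ℕ → ℝ,
  (∀ n, 0 < g n) → ∃ β : ℕ → ℝ, (∀ m, 0 < β m) ∧ (∀ m : ℕ, β m ≤ Real.exp (-(m : ℝ) ^ 2)) ∧
    Summable (fun j => β (o j)) ∧ ∀ n, ∑' j, (if n - 1 ≤ o j then β (o j) else 0) ≤ g n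

/-- Energy conservation and uniqueness for regular solutions. -/
def S_UNI : Prop := ∀ (J : Type) (o : J → ℕ) (σ : J → J) (τ : J → ℝ) (A : ℕ → ℝ)
  (c : Ix J → Ix J → Ix J → ℝ) (S : ℕ → ℝ) (N : Ix J → ℝ) (T : ℝ), Ker o σ τ A c →
  Wt o A c N →
    (∀ z, KSol S o σ τ c N T z → Init z →
      ∀ t ∈ Ico 0 T, Summable (fun a => z a t ^ 2) ∧ ∑' a, z a t ^ 2 = 1) ∧
    ∀ z z', KSol S o σ τ c N T z → KSol S o σ τ c N T z' → (∀ i, z i 0 = z' i 0) →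
      ∀ i, ∀ t ∈ Ico 0 T, z i t = z' i t

/-- Blow-up for the full system of the modes. -/
def S_BLOWK : Prop := ∀ (J : Type) (o : J → ℕ) (σ : J → J) (τ : J → ℝ) (A : ℕ → ℝ)
  (c : Ix J → Ix J → Ix J → ℝ) (N : Ix J → ℝ), Ker o σ τ A c → Chain A → Wt o A c N →
  ∃ S : ℕ → ℝ, (∀ n, 1 ≤ S n) ∧ ∃ (T : ℝ) (z : Ix J → ℝ → ℝ), 0 < T ∧ T ≤ 30 ∧
    KSol S o σ τ c N T z ∧ Init z ∧
    (∀ (T' : ℝ) (z' : Ix J → ℝ → ℝ), 0 < T' → KSol S o σ τ c N T' z' → Init z' →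
      T' ≤ T ∧ ∀ i, ∀ t ∈ Ico 0 T', z' i t = z i t) ∧
    (∀ t ∈ Ico 0 T, Summable (fun a => z a t ^ 2) ∧ ∑' a, z a t ^ 2 = 1) ∧
    ∀ M : ℝ, ∃ t ∈ Ico 0 T, ∃ n, M < A n * |z (Sum.inl n) t|

/-! ### The concrete system -/

open Pool.Agent.Y302.Trunc (Lev am sg rho)

/-- Facts on the levels. -/
def S_CJ1 : Prop :=
  (∀ n k, k ∈ Lev 1 n ↔ ‖vec k‖ ^ 2 = (rho 1 n : ℝ)) ∧
  (∀ n, (Lev 1 n).card = 24 ∧ (∀ k ∈ Lev 1 n, -k ∈ Lev 1 n) ∧ (0 : Z3) ∉ Lev 1 n) ∧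
  (∀ n m, ∀ k ∈ Lev 1 n, ∀ l ∈ Lev 1 m, k + l ≠ 0 →
    (64 : ℝ) ^ (n / 4) ≤ 4096 * ‖vec (k + l)‖ ^ 2) ∧
  (∀ n, (64 : ℝ) ^ (n / 4) ≤ (rho 1 n : ℝ) ∧ (rho 1 n : ℝ) ≤ 208 * (64 : ℝ) ^ (n / 4)) ∧
  (∀ n m, (rho 1 n : ℝ) ≤ 4 * (rho 1 m : ℝ) → n ≤ m + 1) ∧
  (∀ n, κ n ∈ Lev 1 n ∧ κ (n + 1) - κ n ∉ Lev 1 n ∧ κ (n + 1) + κ n ∉ Lev 1 n) ∧
  (∀ n, OT (Em n) ∧ OT (Ym n) ∧ pair (Em n) (Em n) = 1 ∧ pair (Ym n) (Ym n) = 1 ∧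
    pair (Em n) (Ym n) = 0 ∧ ∀ k ∉ Lev 1 n, Em n k = 0 ∧ Ym n k = 0)

/-- The interactions of the main modes. -/
def S_CJ2 : Prop :=
  (∀ p q n, bil (Em p) (Em q) (Em n) =
    (if p = q ∧ n = p + 1 then Ac p else 0) - (if p = n ∧ q = n + 1 then Ac n else 0)) ∧
  (∀ p q n, bil (Em p) (Em q) (Ym n) = 0) ∧ Chain Ac ∧
  ∀ n, (rho 1 n : ℝ) ≤ 100 * Ac n ^ 2 ∧ Ac n ^ 2 ≤ 100 * (rho 1 n : ℝ)

/-- Linear algebra. -/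
def S_CJ3 : Prop :=
  (∀ k : Z3, k ≠ 0 → ∃ b : Bool → E3, (∀ i j, inner ℝ (b i) (b j) = if i = j then (1 : ℝ) else 0) ∧
    (∀ i, inner ℝ (vec k) (b i) = (0 : ℝ)) ∧
    ∀ v : E3, inner ℝ (vec k) v = (0 : ℝ) → v = ∑ i, (inner ℝ v (b i) : ℝ) • b i) ∧
  ∀ (s : Finset Z3) (E Y : Fam), s.card = 24 → (∀ k ∈ s, -k ∈ s) → (0 : Z3) ∉ s →
    OT E → OT Y → (∀ k ∉ s, E k = 0 ∧ Y k = 0) → pair E E = 1 → pair Y Y = 1 → pair E Y = 0 →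
    ∃ f : Fin 11 × Bool → Fam, (∀ j, OT (f j)) ∧ (∀ j, ∀ k ∉ s, f j k = 0) ∧
      (∀ i j, pair (f i) (f j) = if i = j then 1 else 0) ∧
      (∀ j, pair (f j) E = 0 ∧ pair (f j) Y = 0) ∧
      ∀ V, OT V → ∀ k ∈ s,
        V k = pair V E • E k + pair V Y • Y k + ∑ j, pair V (f j) • f j k

/-- A system of modes which contains the main modes and the idle modes. -/
structure Sys {J : Type} (o : J → ℕ) (σ : J → J) (τ : J → ℝ) (N : Ix J → ℝ)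
    (e : Ix J → Fam) : Prop where
  modes : Modes o σ N e
  one : ∀ i, 1 ≤ N i
  main : ∀ n, e (Sum.inl n) = Em n
  inv : ∀ j, σ (σ j) = j
  ogrp : ∀ j, o (σ j) = o j
  skew : ∀ j, τ (σ j) = -τ j
  kind : ∀ j, (τ j ^ 2 = 1 ∧ (o j : ℝ) = 32768 * N (Sum.inr j)) ∨
    (τ j = 0 ∧ e (Sum.inr j) = Ym (o j))

/-- Existence of the system of modes. -/
def S_CJ4 : Prop := S_CJ1 → S_CJ3 → ∃ (J : Type) (o : J → ℕ) (σ : J → J) (τ : J → ℝ)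
  (N : Ix J → ℝ) (e : Ix J → Fam), Sys o σ τ N e

/-- Properties of the kernel. -/
def S_CJ5 : Prop := S_CJ1 → S_CJ2 → ∀ (J : Type) (o : J → ℕ) (σ : J → J) (τ : J → ℝ)
  (N : Ix J → ℝ) (e : Ix J → Fam), Sys o σ τ N e →
    Ker o σ τ Ac (fun i a b => bil (e a) (e b) (e i)) ∧
      Wt o Ac (fun i a b => bil (e a) (e b) (e i)) N ∧
      ∀ n, Ac n ^ 2 ≤ 100 * N (Sum.inl n)

/-- The concrete system. -/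
def S_CONCK : Prop := ∃ (J : Type) (o : J → ℕ) (σ : J → J) (τ : J → ℝ) (N : Ix J → ℝ)
  (e : Ix J → Fam), Modes o σ N e ∧ Ker o σ τ Ac (fun i a b => bil (e a) (e b) (e i)) ∧
    Chain Ac ∧ Wt o Ac (fun i a b => bil (e a) (e b) (e i)) N ∧ e (Sum.inl 0) = Em 0 ∧
    ∀ n, Ac n ^ 2 ≤ 100 * N (Sum.inl n)

/-- The initial velocity. -/
def S_DAT : Prop := fieldOf (Em 0) = u0

/-! ### The main theorem -/

/-- The Euler equations with an additional skew-adjoint linear term which commutes with the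
Laplacian: blow-up from an explicit trigonometric polynomial. -/
def S_MAINK : Prop := ∃ (ι : Type) (e : ι → E3 → E3) (N : ι → ℝ) (σ : ι → ι) (s : ι → ℝ)
  (T : ℝ) (u : ℝ → E3 → E3), Neutral e N σ s ∧ 0 < T ∧ T ≤ 30 ∧ SolK e σ s T u ∧ u 0 = u0 ∧
    -- uniqueness, and `T` is the maximal time of existence
    (∀ (T' : ℝ) (v : ℝ → E3 → E3), 0 < T' → SolK e σ s T' v → v 0 = u0 →
      T' ≤ T ∧ ∀ t ∈ Ico 0 T', v t = u t) ∧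
    -- energy conservation
    (∀ t ∈ Ico 0 T, ip (u t) (u t) = ip u0 u0) ∧
    -- blow-up of the enstrophy
    ∀ M : ℝ, ∃ t ∈ Ico 0 T, M < dir (u t)

/-- The passage to fields. -/
def S_PHYSK : Prop := S_FLD → S_BLOWK → S_CONCK → S_DAT → S_MAINK

end Pool.Agent.Y6.K
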