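import Pool.Agent.Y6.K.Stm

/-! Blow-up for the full system of the modes (assembly). -/

open Set Filter Topology MeasureTheory

set_option autoImplicit false

namespace Pool.Agent.Y6.K

open Pool.Agent.Y5 Pool.Agent.Y5.D

section

variable {J : Type} {o : J → ℕ} {σ : J → J} {τ : J → ℝ} {A : ℕ → ℝ}
  {c : Ix J → Ix J → Ix J → ℝ} {N : Ix J → ℝ} {S β : ℕ → ℝ}

lemma φ0_pos (n : ℕ) : 0 < φ0 n := by unfold φ0; positivity

lemma A_one (hA : Chain A) (n : ℕ) : 1 ≤ A n := by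
  induction n with
  | zero => exact hA.A0
  | succ n ih => have := hA.lo n; linarith

lemma A_grow (hA : Chain A) (n : ℕ) : (7 / 5 : ℝ) ^ n ≤ A n := by
  induction n with
  | zero => simpa using hA.A0
  | succ n ih => have := hA.lo n; rw [pow_succ]; linarith

lemma tail_le (hβ : ∀ m, 0 < β m) (hs : Summable (fun j => β (o j))) {z : Ix J → ℝ}
    (hz : ∀ j, |z (Sum.inr j)| ≤ β (o j)) (P : ℕ) :
    tail o P z ≤ ∑' j, (if P ≤ o j then β (o j) else 0) := by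
  have h1 : Summable (fun j => if P ≤ o j then β (o j) else 0) := by
    refine Summable.of_nonneg_of_le (fun j => ?_) (fun j => ?_) hs
    · split_ifs
      exacts [(hβ _).le, le_rfl]
    · split_ifs
      exacts [le_rfl, (hβ _).le]
  have h2 : ∀ j, (if P ≤ o j then |z (Sum.inr j)| else 0) ≤ if P ≤ o j then β (o j) else 0 := by
    intro j
    split_ifs
    exacts [hz j, le_rfl]
  refine Summable.tsum_le_tsum h2 (Summable.of_nonneg_of_le (fun j => ?_) h2 h1) h1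
  split_ifs
  exacts [abs_nonneg _, le_rfl]

lemma adm_of (hs : Summable (fun j => β (o j))) {z : Ix J → ℝ}
    (h1 : Summable (fun a => z a ^ 2)) (h2 : ∑' a, z a ^ 2 ≤ 1)
    (hz : ∀ j, |z (Sum.inr j)| ≤ β (o j)) : Adm z :=
  ⟨h1, h2, Summable.of_nonneg_of_le (fun _ => abs_nonneg _) hz hs⟩

lemma fin_lv (K : Ker o σ τ A c) (m : ℕ) : {i : Ix J | lv o i ≤ m}.Finite := by
  have h1 : {i : Ix J | lv o i ≤ m} ⊆ Sum.inl '' (Set.Iic m) ∪ Sum.inr '' {j | o j ≤ m} := by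
    rintro (n | j) h
    · exact Or.inl ⟨n, h, rfl⟩
    · exact Or.inr ⟨j, h, rfl⟩
  exact (((Set.finite_Iic m).image _).union ((K.fin m).image _)).subset h1

lemma TSol.summable (K : Ker o σ τ A c) {n : ℕ} {z : Ix J → ℝ → ℝ} (h : TSol S o σ τ c n z)
    (t : ℝ) : Summable (fun a => z a t ^ 2) := by
  refine summable_of_hasFiniteSupport ((fin_lv K n).subset fun i hi => ?_)
  by_contra hcon
  have hcon : ¬ lv o i ≤ n := hcon
  rw [not_le] at hcon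
  apply hi
  simp [h.zero i hcon t]

/-- the bounds of the coefficients on the other modes -/
lemma weight_exp (C : ℝ) (k : ℕ) : ∃ M, ∀ m : ℕ, (|C| + 1) ^ ((m + 1) * k) *
    Real.exp (-(m : ℝ) ^ 2) ≤ M := by
  set L := Real.log (|C| + 1) with hL
  have hC : (0 : ℝ) < |C| + 1 := by positivity
  refine ⟨Real.exp (k * L + (k * L) ^ 2), fun m => ?_⟩
  have h1 : (|C| + 1) ^ ((m + 1) * k) = Real.exp (L * ((m + 1) * k : ℕ)) := by
    rw [hL, Real.exp_mul, Real.exp_log hC, Real.rpow_natCast]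
  rw [h1, ← Real.exp_add]
  refine Real.exp_le_exp.2 ?_
  push_cast
  nlinarith [sq_nonneg ((m : ℝ) - k * L), sq_nonneg ((m : ℝ) + k * L)]

/-- the perturbation of the main system -/
noncomputable def pf (A : ℕ → ℝ) (c : Ix J → Ix J → Ix J → ℝ) (z : Ix J → ℝ → ℝ) (n : ℕ) (t : ℝ) :
    ℝ := qd c (fun a => z a t) (Sum.inl n) - cvf A (fun m => z (Sum.inl m) t) n

/-- the bound of the perturbation -/
def PB (A : ℕ → ℝ) (c : Ix J → Ix J → Ix J → ℝ) (o : J → ℕ) (β : ℕ → ℝ) : Prop :=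
  ∀ z : Ix J → ℝ, Adm z → (∀ j, |z (Sum.inr j)| ≤ β (o j)) →
    ∀ n, |qd c z (Sum.inl n) - cvf A (fun m => z (Sum.inl m)) n| ≤ φ0 n

lemma TSol.csol (K : Ker o σ τ A c) (hs : Summable (fun j => β (o j))) (hp : PB A c o β) {n : ℕ}
    {z : Ix J → ℝ → ℝ} (h : TSol S o σ τ c n z)
    (hz : ∀ j, ∀ t ∈ Icc (0 : ℝ) 60, |z (Sum.inr j) t| ≤ β (o j)) {a b : ℝ} (ha : 0 ≤ a)
    (hb : b ≤ 60) : CSol A n a b (fun m => z (Sum.inl m)) (pf A c z) := by
  have hsub : Icc a b ⊆ Icc 0 60 := Icc_subset_Icc ha hb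
  refine ⟨fun m hm t ht => ?_, fun m t ht => ?_⟩
  · have h1 := (h.deriv (Sum.inl m) hm t (hsub ht)).mono hsub
    refine h1.congr_deriv ?_
    simp only [Kz, pf]
    ring
  · exact hp _ (adm_of hs (h.summable K t) (h.energy t (hsub ht)) fun j => hz j t (hsub ht))
      (fun j => hz j t (hsub ht)) m

lemma LSol.csol (hs : Summable (fun j => β (o j))) (hp : PB A c o β) (n : ℕ)
    {z : Ix J → ℝ → ℝ} (h : LSol S o σ τ c β z) {a b : ℝ} (ha : 0 ≤ a)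
    (hb : b ≤ 60) : CSol A n a b (fun m => z (Sum.inl m)) (pf A c z) := by
  have hsub : Icc a b ⊆ Icc 0 60 := Icc_subset_Icc ha hb
  refine ⟨fun m _ t ht => ?_, fun m t ht => ?_⟩
  · have h1 := (h.deriv (Sum.inl m) t (hsub ht)).mono hsub
    refine h1.congr_deriv ?_
    simp only [Kz, pf]
    ring
  · exact hp _ (adm_of hs (h.energy t (hsub ht)).1 (h.energy t (hsub ht)).2
      fun j => h.bdd j t (hsub ht)) (fun j => h.bdd j t (hsub ht)) m

/-- good times -/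
def Good (A : ℕ → ℝ) (U : Ultrafilter ℕ) (Z : ℕ → Ix J → ℝ → ℝ) (θ : ℝ) : Prop :=
  0 ≤ θ ∧ θ ≤ 60 ∧ ∃ M, ∀ᶠ n in (U : Filter ℕ), ∀ t ∈ Icc 0 θ, ∀ m, A m * |Z n (Sum.inl m) t| ≤ M

lemma Good.mono {U : Ultrafilter ℕ} {Z : ℕ → Ix J → ℝ → ℝ} {θ θ' : ℝ} (h : Good A U Z θ)
    (h0 : 0 ≤ θ') (h1 : θ' ≤ θ) : Good A U Z θ' := by
  obtain ⟨a, b, M, hM⟩ := h
  refine ⟨h0, h1.trans b, M, hM.mono fun n hn t ht m => hn t ⟨ht.1, ht.2.trans h1⟩ m⟩

lemma good_zero (hA : Chain A) {U : Ultrafilter ℕ} {Z : ℕ → Ix J → ℝ → ℝ}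
    (hZ : ∀ n, Init (Z n)) : Good A U Z 0 := by
  refine ⟨le_rfl, by norm_num, A 0, Eventually.of_forall fun n t ht m => ?_⟩
  have h0 : t = 0 := le_antisymm ht.2 ht.1
  subst h0
  obtain ⟨h1, h2, -⟩ := hZ n
  rcases m with _ | m
  · rw [h1]; simp
  · rw [h2]; simpa using le_trans zero_le_one hA.A0

lemma Good.lim {U : Ultrafilter ℕ} {Z : ℕ → Ix J → ℝ → ℝ} {z : Ix J → ℝ → ℝ} {θ : ℝ}
    (h : Good A U Z θ)
    (hl : ∀ i, ∀ t ∈ Icc (0 : ℝ) 60, Tendsto (fun n => Z n i t) U (𝓝 (z i t))) :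
    ∃ M, ∀ m, ∀ t ∈ Icc 0 θ, A m * |z (Sum.inl m) t| ≤ M := by
  obtain ⟨h0, h1, M, hM⟩ := h
  refine ⟨M, fun m t ht => ?_⟩
  have h2 := hl (Sum.inl m) t ⟨ht.1, ht.2.trans h1⟩
  have h3 : Tendsto (fun n => A m * |Z n (Sum.inl m) t|) U (𝓝 (A m * |z (Sum.inl m) t|)) :=
    h2.abs.const_mul _
  exact le_of_tendsto h3 (hM.mono fun n hn => hn t ht m)

/-- extension of the interval of good times -/
lemma Good.extend (hPERS : S_PERS) (K : Ker o σ τ A c) (hA : Chain A)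
    (hs : Summable (fun j => β (o j))) (hp : PB A c o β) {Z : ℕ → Ix J → ℝ → ℝ}
    (hZ : ∀ n, TSol S o σ τ c n (Z n))
    (hb : ∀ n j, ∀ t ∈ Icc (0 : ℝ) 60, |Z n (Sum.inr j) t| ≤ β (o j))
    {U : Ultrafilter ℕ} {z : Ix J → ℝ → ℝ}
    (hl : ∀ i, ∀ t ∈ Icc (0 : ℝ) 60, Tendsto (fun n => Z n i t) U (𝓝 (z i t)))
    {X δ M' : ℝ} (hX : 0 ≤ X)
    (hloc : ∀ (n : ℕ) (a b : ℝ) (x f : ℕ → ℝ → ℝ), a ≤ b → b ≤ a + δ → CSol A n a b x f →
    (∀ m, n < m → ∀ t ∈ Icc a b, x m t = 0) → (∀ m, A m ^ 3 * |x m a| ≤ X + 1) →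
    ∀ m, ∀ t ∈ Icc a b, A m * |x m t| ≤ M') (hδ : 0 < δ) {θ : ℝ} (h : Good A U Z θ)
    (hθ : ∀ m, A m ^ 3 * |z (Sum.inl m) θ| ≤ X) : Good A U Z (min (θ + δ) 60) := by
  obtain ⟨h0, h1, M, hM⟩ := h
  obtain ⟨C, hC⟩ := hPERS A hA 4 M
  have hθ60 : θ ∈ Icc (0 : ℝ) 60 := ⟨h0, h1⟩
  have hpos : ∀ m, 0 < A m := fun m => lt_of_lt_of_le one_pos (A_one hA m)
  -- choose `n₀` with `C ≤ A m` for `m ≥ n₀`
  obtain ⟨n₀, hn₀⟩ : ∃ n₀ : ℕ, C ≤ (7 / 5 : ℝ) ^ n₀ := by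
    obtain ⟨n, hn⟩ := pow_unbounded_of_one_lt C (by norm_num : (1 : ℝ) < 7 / 5)
    exact ⟨n, hn.le⟩
  have h2 : ∀ m, n₀ ≤ m → C ≤ A m := fun m hm =>
    hn₀.trans ((pow_le_pow_right₀ (by norm_num) hm).trans (A_grow hA m))
  have h3 : ∀ᶠ n in (U : Filter ℕ), ∀ m ∈ Finset.range n₀,
      A m ^ 3 * |Z n (Sum.inl m) θ| ≤ X + 1 := by
    rw [Finset.eventually_all]
    intro m _
    have h4 : Tendsto (fun n => A m ^ 3 * |Z n (Sum.inl m) θ|) U
        (𝓝 (A m ^ 3 * |z (Sum.inl m) θ|)) := (hl (Sum.inl m) θ hθ60).abs.const_mul _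
    have h5 : A m ^ 3 * |z (Sum.inl m) θ| < X + 1 := lt_of_le_of_lt (hθ m) (by linarith)
    exact (h4.eventually (gt_mem_nhds h5)).mono fun n hn => hn.le
  refine ⟨le_min (by linarith) (by norm_num), min_le_right _ _, max M M', ?_⟩
  filter_upwards [hM, h3] with n hn1 hn2 t ht m
  rcases le_total t θ with htθ | htθ
  · exact (hn1 t ⟨ht.1, htθ⟩ m).trans (le_max_left _ _)
  · have hcs := (hZ n).csol K hs hp (hb n) le_rfl h1 (a := 0) (b := θ)
    have h6 := hC n θ _ _ h0 h1 hcs (hZ n).init.1 (hZ n).init.2.1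
      (fun m t ht => hn1 t ht m)
    have h7 : ∀ m, A m ^ 3 * |Z n (Sum.inl m) θ| ≤ X + 1 := by
      intro m
      rcases lt_or_ge m n₀ with hm | hm
      · exact hn2 m (Finset.mem_range.2 hm)
      · rcases le_or_gt m n with hmn | hmn
        · have h8 := h6 m hmn θ ⟨h0, le_rfl⟩
          have h9 : A m * (A m ^ 3 * |Z n (Sum.inl m) θ|) ≤ A m * 1 := by
            calc A m * (A m ^ 3 * |Z n (Sum.inl m) θ|) = A m ^ 4 * |Z n (Sum.inl m) θ| := by ring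
              _ ≤ C := h8
              _ ≤ A m * 1 := by rw [mul_one]; exact h2 m hm
          have h10 := le_of_mul_le_mul_left h9 (hpos m)
          linarith
        · rw [(hZ n).zero (Sum.inl m) hmn θ]
          simp only [abs_zero, mul_zero]
          linarith
    have hcs2 := (hZ n).csol K hs hp (hb n) h0 (min_le_right (θ + δ) 60) (a := θ)
    have h11 := hloc n θ (min (θ + δ) 60) _ _ (le_min (by linarith) h1) (min_le_left _ _) hcs2
      (fun m hm t _ => (hZ n).zero (Sum.inl m) hm t) h7 m t ⟨htθ, ht.2⟩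
    exact h11.trans (le_max_right _ _)

lemma KSol.mono {T T' : ℝ} {z : Ix J → ℝ → ℝ} (h : KSol S o σ τ c N T z) (hT : T' ≤ T) :
    KSol S o σ τ c N T' z := by
  refine ⟨fun i t ht => (h.deriv i t ⟨ht.1, ht.2.trans_le hT⟩).mono
    (Ico_subset_Ico_right hT), fun k T'' hT'' => h.reg k T'' (hT''.trans_le hT)⟩

/-- the perturbation is small -/
lemma pb_of (hβ : ∀ m, 0 < β m) (hs : Summable (fun j => β (o j))) {R : ℕ → ℝ}
    (hR : ∀ m, 1 ≤ R m)
    (h : ∀ n z, Adm z → |qd c z (Sum.inl n) - cvf A (fun m => z (Sum.inl m)) n|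
        ≤ R n * tail o (n - 1) z)
    (h2 : ∀ n, ∑' j, (if n - 1 ≤ o j then β (o j) else 0) ≤ φ0 n / R n) : PB A c o β := by
  intro z hz hb n
  have hRn : 0 < R n := lt_of_lt_of_le one_pos (hR n)
  calc _ ≤ R n * tail o (n - 1) z := h n z hz
    _ ≤ R n * (φ0 n / R n) := by
        refine mul_le_mul_of_nonneg_left ((tail_le hβ hs hb _).trans (h2 n)) hRn.le
    _ = φ0 n := by field_simp

/-- regularity of the limit on the intervals of good times -/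
lemma reg_of (hPERS : S_PERS) (hA : Chain A) (W : Wt o A c N) (hβ1 : ∀ m : ℕ, β m ≤
    Real.exp (-(m : ℝ) ^ 2)) (hs : Summable (fun j => β (o j))) (hp : PB A c o β)
    {z : Ix J → ℝ → ℝ} (h : LSol S o σ τ c β z) {θ : ℝ} (h0 : 0 ≤ θ) (h1 : θ ≤ 60)
    (hM : ∃ M, ∀ m, ∀ t ∈ Icc 0 θ, A m * |z (Sum.inl m) t| ≤ M) (k : ℕ) :
    ∃ M, ∀ t ∈ Icc 0 θ, ∀ i, N i ^ k * |z i t| ≤ M := by
  obtain ⟨M, hM⟩ := hM
  obtain ⟨C, p, hCp⟩ := W.main
  obtain ⟨C', hC'⟩ := W.oth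
  obtain ⟨M1, hM1⟩ := hPERS A hA (p * k) M
  obtain ⟨M2, hM2⟩ := weight_exp C' k
  have hpos : ∀ m, 0 < A m := fun m => lt_of_lt_of_le one_pos (A_one hA m)
  refine ⟨max (|C| ^ k * |M1|) M2, fun t ht i => ?_⟩
  rcases i with n | j
  · refine le_trans ?_ (le_max_left _ _)
    have h3 := hM1 n θ _ _ h0 h1 (h.csol hs hp n le_rfl h1) h.init.1 h.init.2.1 hM n le_rfl t ht
    have h4 : N (Sum.inl n) ≤ |C| * A n ^ p :=
      (hCp n).trans (mul_le_mul_of_nonneg_right (le_abs_self C) (pow_pos (hpos n) _).le)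
    have hN : 0 ≤ N (Sum.inl n) := le_trans zero_le_one (W.one _)
    calc N (Sum.inl n) ^ k * |z (Sum.inl n) t|
        ≤ (|C| * A n ^ p) ^ k * |z (Sum.inl n) t| :=
          mul_le_mul_of_nonneg_right (pow_le_pow_left₀ hN h4 k) (abs_nonneg _)
      _ = |C| ^ k * (A n ^ (p * k) * |z (Sum.inl n) t|) := by rw [mul_pow, pow_mul]; ring
      _ ≤ |C| ^ k * |M1| :=
          mul_le_mul_of_nonneg_left (h3.trans (le_abs_self _)) (pow_nonneg (abs_nonneg _) _)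
  · refine le_trans ?_ (le_max_right _ _)
    have h5 : N (Sum.inr j) ≤ (|C'| + 1) ^ (o j + 1) := by
      refine (hC' j).trans ((le_abs_self _).trans ?_)
      rw [abs_pow]
      exact pow_le_pow_left₀ (abs_nonneg _) (by linarith) _
    have hN : 0 ≤ N (Sum.inr j) := le_trans zero_le_one (W.one _)
    calc N (Sum.inr j) ^ k * |z (Sum.inr j) t|
        ≤ ((|C'| + 1) ^ (o j + 1)) ^ k * Real.exp (-(o j : ℝ) ^ 2) :=
          mul_le_mul (pow_le_pow_left₀ hN h5 k)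
            ((h.bdd j t ⟨ht.1, ht.2.trans h1⟩).trans (hβ1 _)) (abs_nonneg _) (by positivity)
      _ = (|C'| + 1) ^ ((o j + 1) * k) * Real.exp (-(o j : ℝ) ^ 2) := by rw [← pow_mul]
      _ ≤ M2 := hM2 _

end

theorem t_BLOWK_of (hGAL : S_GAL) (hDEC : S_DEC) (hBOOT : S_BOOT) (hLIM : S_LIM)
    (hPERS : S_PERS) (hLOC : S_LOC) (hRIC : S_RIC) (hSEQB : S_SEQB) (hUNI : S_UNI) : S_BLOWK := by
  intro J o σ τ A c N K hA W
  obtain ⟨R, hR1, -, -, hR4⟩ := hDEC J o σ τ A c K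
  obtain ⟨β, hβ0, hβ1, hs, hβ2⟩ := hSEQB J o K.fin (fun n => φ0 n / R n)
    (fun n => div_pos (φ0_pos n) (lt_of_lt_of_le one_pos (hR1 n)))
  have hp : PB A c o β := pb_of hβ0 hs hR1 hR4 hβ2
  obtain ⟨S, hS1, hS⟩ := hBOOT J o σ τ A c β K hβ0
  choose Z hZ using hGAL J o σ τ A c S K
  have hb : ∀ n j, ∀ t ∈ Icc (0 : ℝ) 60, |Z n (Sum.inr j) t| ≤ β (o j) :=
    fun n j t ht => hS n (Z n) (hZ n) j t ht
  set U : Ultrafilter ℕ := Filter.hyperfilter ℕ with hU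
  obtain ⟨z, hz, hl⟩ := hLIM J o σ τ A c β S K hβ0 hs Z hZ hb U Nat.hyperfilter_le_atTop
  have hpos : ∀ m, 0 < A m := fun m => lt_of_lt_of_le one_pos (A_one hA m)
  -- the good times are at most `30`
  have h30 : ∀ θ, Good A U Z θ → θ ≤ 30 := by
    intro θ hθ
    obtain ⟨M, hM⟩ := hθ.lim hl
    obtain ⟨C, hC⟩ := hPERS A hA 4 M
    refine hRIC A hA θ _ _ hθ.1 hθ.2.1 (fun n => hz.csol hs hp n le_rfl hθ.2.1) hz.init.1
      hz.init.2.1 ⟨C, fun n t ht => ?_⟩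
    exact hC n θ _ _ hθ.1 hθ.2.1 (hz.csol hs hp n le_rfl hθ.2.1) hz.init.1 hz.init.2.1 hM n
      le_rfl t ht
  have hG0 : Good A U Z 0 := good_zero hA fun n => (hZ n).init
  set G : Set ℝ := {θ | Good A U Z θ} with hG
  have hbdd : BddAbove G := ⟨30, fun θ hθ => h30 θ hθ⟩
  set T := sSup G with hT
  have hTle : T ≤ 30 := csSup_le ⟨0, hG0⟩ fun θ hθ => h30 θ hθ
  have hlt : ∀ θ, 0 ≤ θ → θ < T → Good A U Z θ := by
    intro θ h0 h1
    obtain ⟨θ', h2, h3⟩ := exists_lt_of_lt_csSup ⟨0, hG0⟩ h1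
    exact Good.mono h2 h0 h3.le
  have hTpos : 0 < T := by
    obtain ⟨δ, M', hδ, hloc⟩ := hLOC A hA (A 0 ^ 3 + 1)
    have h1 : Good A U Z (min (0 + δ) 60) := by
      refine Good.extend hPERS K hA hs hp hZ hb hl (pow_pos (hpos 0) 3).le hloc hδ hG0 fun m => ?_
      rcases m with _ | m
      · rw [hz.init.1]; simp
      · rw [hz.init.2.1]; simpa using (pow_pos (hpos 0) 3).le
    have h2 : 0 < min (0 + δ) 60 := lt_min (by linarith) (by norm_num)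
    exact lt_of_lt_of_le h2 (le_csSup hbdd h1)
  have hsub : Ico 0 T ⊆ Icc (0 : ℝ) 60 := fun t ht => ⟨ht.1, by linarith [ht.2]⟩
  -- the limit is a regular solution on `[0, T)`
  have hK : KSol S o σ τ c N T z := by
    refine ⟨fun i t ht => (hz.deriv i t (hsub ht)).mono hsub, fun k T' hT' => ?_⟩
    rcases lt_or_ge T' 0 with h0 | h0
    · exact ⟨0, fun t ht => absurd (ht.1.trans ht.2) (not_le.2 h0)⟩
    · have hg := hlt T' h0 hT'
      exact reg_of hPERS hA W hβ1 hs hp hz h0 hg.2.1 (hg.lim hl) k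
  -- the main modes are unbounded
  have hunb : ∀ M : ℝ, ∃ t ∈ Ico 0 T, ∃ n, M < A n * |z (Sum.inl n) t| := by
    intro M
    by_contra hcon
    push Not at hcon
    obtain ⟨C, hC⟩ := hPERS A hA 3 M
    have h1 : ∀ t ∈ Ico 0 T, ∀ n, A n ^ 3 * |z (Sum.inl n) t| ≤ |C| := by
      intro t ht n
      have hg := hlt t ht.1 ht.2
      exact (hC n t _ _ ht.1 hg.2.1 (hz.csol hs hp n le_rfl hg.2.1) hz.init.1 hz.init.2.1
        (fun m s hs' => hcon s ⟨hs'.1, hs'.2.trans_lt ht.2⟩ m) n le_rfl t ⟨ht.1, le_rfl⟩).trans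
        (le_abs_self _)
    obtain ⟨δ, M', hδ, hloc⟩ := hLOC A hA (|C| + 1)
    set θ := max 0 (T - δ / 2) with hθ
    have hθ0 : 0 ≤ θ := le_max_left _ _
    have hθT : θ < T := max_lt hTpos (by linarith)
    have h2 := Good.extend hPERS K hA hs hp hZ hb hl (abs_nonneg C) hloc hδ (hlt θ hθ0 hθT)
      (h1 θ ⟨hθ0, hθT⟩)
    have h3 : min (θ + δ) 60 ≤ T := le_csSup hbdd h2
    have h4 : T < min (θ + δ) 60 := by
      refine lt_min ?_ (by linarith)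
      have := le_max_right 0 (T - δ / 2)
      linarith
    linarith
  refine ⟨S, hS1, T, z, hTpos, hTle, hK, hz.init, ?_, ?_, hunb⟩
  · intro T' z' hT' hK' hi'
    have hinit : ∀ i, z' i 0 = z i 0 := by
      rintro (n | j)
      · rcases n with _ | n
        · rw [hi'.1, hz.init.1]
        · rw [hi'.2.1, hz.init.2.1]
      · rw [hi'.2.2, hz.init.2.2]
    have heq : ∀ i, ∀ t ∈ Ico 0 (min T' T), z' i t = z i t :=
      (hUNI J o σ τ A c S N (min T' T) K W).2 z' z (hK'.mono (min_le_left _ _))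
        (hK.mono (min_le_right _ _)) hinit
    have hle : T' ≤ T := by
      by_contra hcon
      rw [not_le] at hcon
      rw [min_eq_right hcon.le] at heq
      obtain ⟨C, p, hCp⟩ := W.main'
      obtain ⟨M, hM⟩ := hK'.reg p T hcon
      obtain ⟨t, ht, n, hn⟩ := hunb (|C| * M)
      have h5 := hM t ⟨ht.1, ht.2.le⟩ (Sum.inl n)
      rw [heq _ t ht] at h5
      have h6 : A n * |z (Sum.inl n) t| ≤ |C| * (N (Sum.inl n) ^ p * |z (Sum.inl n) t|) := by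
        rw [← mul_assoc]
        refine mul_le_mul_of_nonneg_right ?_ (abs_nonneg _)
        refine (hCp n).trans (mul_le_mul_of_nonneg_right (le_abs_self C) ?_)
        exact pow_nonneg (le_trans zero_le_one (W.one _)) _
      have h7 : |C| * (N (Sum.inl n) ^ p * |z (Sum.inl n) t|) ≤ |C| * M :=
        mul_le_mul_of_nonneg_left h5 (abs_nonneg _)
      linarith
    refine ⟨hle, fun i t ht => ?_⟩
    rw [min_eq_left hle] at heq
    exact heq i t ht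
  · exact (hUNI J o σ τ A c S N T K W).1 z hK hz.init

end Pool.Agent.Y6.K
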