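import Pool.Agent.Y5.D.Stm
import Pool.Agent.Y302.Trunc.Sphere

/-!
Definitions for the Euler equations with an additional skew-adjoint linear term which commutes with
the Laplacian (periodic, odd fields, written with sine series).
-/

open Set Filter Topology MeasureTheory

set_option autoImplicit false

namespace Pool.Agent.Y6.K

open Pool.Agent.Y5 Pool.Agent.Y5.D

/-! ### Abstract systems -/

/-- level of a mode -/
def lv {J : Type} (o : J → ℕ) : Ix J → ℕ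
  | Sum.inl n => n
  | Sum.inr j => o j

/-- The skew linear term: the other modes are rotated in the pairs `{j, σ j}` with the speed
`S (o j)`; the modes with `τ j = 0` and the main modes are not rotated. -/
noncomputable def Kz {J : Type} (S : ℕ → ℝ) (o : J → ℕ) (σ : J → J) (τ : J → ℝ)
    (z : Ix J → ℝ) : Ix J → ℝ
  | Sum.inl _ => 0
  | Sum.inr j => S (o j) * τ j * z (Sum.inr (σ j))

/-- Interaction kernels. -/
structure Ker {J : Type} (o : J → ℕ) (σ : J → J) (τ : J → ℝ) (A : ℕ → ℝ)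
    (c : Ix J → Ix J → Ix J → ℝ) : Prop where
  inv : ∀ j, σ (σ j) = j
  grp : ∀ j, o (σ j) = o j
  skew : ∀ j, τ (σ j) = -τ j
  unit : ∀ j, τ j = 0 ∨ τ j ^ 2 = 1
  fin : ∀ m, {j | o j ≤ m}.Finite
  anti : ∀ i a b, c i a b = -c b a i
  bdd : ∀ i, ∃ R, ∀ a b, |c i a b| ≤ R
  deg : ∃ D : ℕ, ∀ i a, ({b | c i a b ≠ 0}.Finite ∧ {b | c i a b ≠ 0}.ncard ≤ D) ∧
    {b | c i b a ≠ 0}.Finite ∧ {b | c i b a ≠ 0}.ncard ≤ D
  mfin : ∀ w, {p : ℕ × ℕ | c (Sum.inr w) (Sum.inl p.1) (Sum.inl p.2) ≠ 0}.Finite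
  tab : ∀ n p q, c (Sum.inl n) (Sum.inl p) (Sum.inl q) =
    (if p = q ∧ n = p + 1 then A p else 0) - (if p = n ∧ q = n + 1 then A n else 0)
  sep : ∀ n a b, c (Sum.inl n) a b ≠ 0 → (∃ j, a = Sum.inr j ∨ b = Sum.inr j) →
    ∃ j, (a = Sum.inr j ∨ b = Sum.inr j) ∧ n ≤ o j + 1
  idle : ∀ w, τ w = 0 → ∀ a b, c (Sum.inr w) a b ≠ 0 →
    ∃ j, (a = Sum.inr j ∨ b = Sum.inr j) ∧ o w ≤ o j

/-- Vector field of the main modes. -/
noncomputable def cvf (A : ℕ → ℝ) (x : ℕ → ℝ) (n : ℕ) : ℝ :=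
  (if n = 0 then 0 else A (n - 1) * x (n - 1) ^ 2) - A n * x n * x (n + 1)

/-- Growth of the coefficients. -/
structure Chain (A : ℕ → ℝ) : Prop where
  A0 : 1 ≤ A 0
  lo : ∀ n, 7 / 5 * A n ≤ A (n + 1)
  hi : ∀ n, A (n + 1) ≤ 2 * A n

/-- bounds of the perturbations of the main system -/
noncomputable def φ0 (n : ℕ) : ℝ := Real.exp (-(n : ℝ) ^ 2) / 1000

/-- quantities of a vector of modes which we can control -/
structure Adm {J : Type} (z : Ix J → ℝ) : Prop where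
  sq : Summable (fun a => z a ^ 2)
  le : ∑' a, z a ^ 2 ≤ 1
  oth : Summable (fun j => |z (Sum.inr j)|)

/-- sum of the moduli of the other modes of the levels `≥ P` -/
noncomputable def tail {J : Type} (o : J → ℕ) (P : ℕ) (z : Ix J → ℝ) : ℝ :=
  ∑' j, if P ≤ o j then |z (Sum.inr j)| else 0

/-- Solutions of the truncated system (modes of the levels `≤ N`) on `[0, 60]`. -/
structure TSol {J : Type} (S : ℕ → ℝ) (o : J → ℕ) (σ : J → J) (τ : J → ℝ)
    (c : Ix J → Ix J → Ix J → ℝ) (N : ℕ) (z : Ix J → ℝ → ℝ) : Prop where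
  zero : ∀ i, N < lv o i → ∀ t, z i t = 0
  deriv : ∀ i, lv o i ≤ N → ∀ t ∈ Icc (0 : ℝ) 60, HasDerivWithinAt (z i)
    (Kz S o σ τ (fun a => z a t) i + qd c (fun a => z a t) i) (Icc 0 60) t
  init : Init z
  energy : ∀ t ∈ Icc (0 : ℝ) 60, ∑' a, z a t ^ 2 ≤ 1

/-- Solutions of the full system on `[0, 60]` with controlled other modes. -/
structure LSol {J : Type} (S : ℕ → ℝ) (o : J → ℕ) (σ : J → J) (τ : J → ℝ)
    (c : Ix J → Ix J → Ix J → ℝ) (β : ℕ → ℝ) (z : Ix J → ℝ → ℝ) : Prop where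
  deriv : ∀ i, ∀ t ∈ Icc (0 : ℝ) 60, HasDerivWithinAt (z i)
    (Kz S o σ τ (fun a => z a t) i + qd c (fun a => z a t) i) (Icc 0 60) t
  init : Init z
  energy : ∀ t ∈ Icc (0 : ℝ) 60, Summable (fun a => z a t ^ 2) ∧ ∑' a, z a t ^ 2 ≤ 1
  bdd : ∀ j, ∀ t ∈ Icc (0 : ℝ) 60, |z (Sum.inr j) t| ≤ β (o j)

/-- Weights. -/
structure Wt {J : Type} (o : J → ℕ) (A : ℕ → ℝ) (c : Ix J → Ix J → Ix J → ℝ)
    (N : Ix J → ℝ) : Prop where
  one : ∀ i, 1 ≤ N i
  size : ∃ (C : ℝ) (p : ℕ), ∀ i a b, |c i a b| ≤ C * N i ^ p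
  summ : ∃ p : ℕ, Summable (fun i => (N i ^ p)⁻¹)
  main : ∃ (C : ℝ) (p : ℕ), ∀ n, N (Sum.inl n) ≤ C * A n ^ p
  main' : ∃ (C : ℝ) (p : ℕ), ∀ n, A n ≤ C * N (Sum.inl n) ^ p
  oth : ∃ C : ℝ, ∀ j, N (Sum.inr j) ≤ C ^ (o j + 1)

/-- Regular solutions of the full system on `[0, T)`. -/
structure KSol {J : Type} (S : ℕ → ℝ) (o : J → ℕ) (σ : J → J) (τ : J → ℝ)
    (c : Ix J → Ix J → Ix J → ℝ) (N : Ix J → ℝ) (T : ℝ) (z : Ix J → ℝ → ℝ) : Prop where
  deriv : ∀ i, ∀ t ∈ Ico 0 T, HasDerivWithinAt (z i)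
    (Kz S o σ τ (fun a => z a t) i + qd c (fun a => z a t) i) (Ico 0 T) t
  reg : ∀ k : ℕ, ∀ T' < T, ∃ M, ∀ t ∈ Icc 0 T', ∀ i, N i ^ k * |z i t| ≤ M

/-! ### Fourier coefficients -/

/-- the orthonormal system of modes -/
structure Modes {J : Type} (o : J → ℕ) (σ : J → J) (N : Ix J → ℝ) (e : Ix J → Fam) : Prop where
  ot : ∀ a, OT (e a)
  supp : ∀ a k, e a k ≠ 0 → ‖vec k‖ ^ 2 = N a
  grp : ∀ j, N (Sum.inr (σ j)) = N (Sum.inr j)
  orth : ∀ a b, (a = b → pair (e a) (e b) = 1) ∧ (a ≠ b → pair (e a) (e b) = 0)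
  few : ∀ a, {k | e a k ≠ 0}.Finite ∧ {k | e a k ≠ 0}.ncard ≤ 24
  cnt : ∀ k, {a | e a k ≠ 0}.Finite ∧ {a | e a k ≠ 0}.ncard ≤ 25
  recon : ∀ V, OT V → ∀ k, V k = ∑' a, pair V (e a) • e a k

/-- the vector with given integer coordinates -/
noncomputable def ivec (a : Fin 3 → ℤ) : E3 := WithLp.toLp 2 (fun i => (a i : ℝ))

/-- sum of the squares of the amplitudes of the level `n` -/
def nrm : ℕ → ℝ
  | 0 => 528 | 1 => 240 | 2 => 264 | _ => 312

/-- the coefficients of the main mode of the level `n` -/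
noncomputable def Em (n : ℕ) : Fam := fun k =>
  open Classical in
  if k ∈ Y302.Trunc.Lev 1 n then (√(nrm (n % 4)))⁻¹ • ivec (Y302.Trunc.am 1 n k) else 0

/-- frequencies of the idle modes of the four base levels -/
def κb : ℕ → (ℤ × ℤ × ℤ)
  | 0 => (3, 1, 1) | 1 => (0, 2, 6) | 2 => (4, 6, 6) | _ => (0, 8, 12)

/-- frequency of the idle mode of the level `n` -/
def κ (n : ℕ) : Z3 := Y302.Trunc.sg 1 n • Y302.Trunc.toK (κb (n % 4))

/-- direction of the idle mode of the level `n` -/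
noncomputable def bdir (n : ℕ) : E3 :=
  if n % 2 = 0 then (√2)⁻¹ • ivec ![0, -1, 1] else ivec ![1, 0, 0]

/-- the coefficients of the idle mode of the level `n` -/
noncomputable def Ym (n : ℕ) : Fam := fun k =>
  open Classical in
  if k = κ n then (√2)⁻¹ • bdir n else if k = -κ n then -((√2)⁻¹ • bdir n) else 0

/-- the coefficients of the chain: `2 π s (66/5 √240/528, 120/11 √264/240, 264/13 √312/264,
312/11 √528/312)`, `s = 8 ^ (n / 4)` -/
noncomputable def Ac (n : ℕ) : ℝ :=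
  2 * Real.pi * ((Y302.Trunc.sg 1 n : ℝ) * (Y302.Trunc.num (n % 4) : ℝ) /
    (Y302.Trunc.den (n % 4) : ℝ)) * √(nrm ((n + 1) % 4)) / nrm (n % 4)

/-! ### Fields -/

/-- the initial velocity -/
noncomputable def u0 (y : E3) : E3 := (2 / √33) • WithLp.toLp 2 (fun i : Fin 3 =>
  3 * Real.sin (2 * Real.pi * y i) *
      (Real.cos (2 * Real.pi * y (i + 1)) * Real.cos (6 * Real.pi * y (i + 2)) +
        Real.cos (6 * Real.pi * y (i + 1)) * Real.cos (2 * Real.pi * y (i + 2)))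
    - 2 * Real.sin (6 * Real.pi * y i) *
      (Real.cos (2 * Real.pi * y (i + 1)) * Real.cos (2 * Real.pi * y (i + 2))))

/-- The skew-adjoint linear operator `K = ∑ s i ⟨·, e (σ i)⟩ e i`: here `e i` is a complete
orthonormal system of eigenfields of the Laplacian with the eigenvalues `- 4 π² N i`
(sine polynomials with frequencies on the sphere `|k|² = N i`), `σ` is an involution which
preserves `N`, and `s (σ i) = - s i`. Hence `K` is skew-adjoint and commutes with the Laplacian. -/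
structure Neutral {ι : Type} (e : ι → E3 → E3) (N : ι → ℝ) (σ : ι → ι) (s : ι → ℝ) : Prop where
  field : ∀ i, ∃ V : Fam, OT V ∧ (∀ k, V k ≠ 0 → ‖vec k‖ ^ 2 = N i) ∧ e i = fieldOf V
  orth : ∀ i j, (i = j → ip (e i) (e j) = 1) ∧ (i ≠ j → ip (e i) (e j) = 0)
  compl : ∀ v, PF v → (∀ i, ip v (e i) = 0) → ∀ y, v y = 0
  inv : ∀ i, σ (σ i) = i
  lap : ∀ i, N (σ i) = N i
  skew : ∀ i, s (σ i) = -s i

/-- Smooth solutions on `[0, T)` of `∂ₜ u + (u · ∇) u + ∇p = K u`, `div u = 0`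
(tested with the complete system `e`; the Fourier coefficients decrease rapidly, locally uniformly
in time, i.e. all derivatives in space are bounded on `[0, T']` for `T' < T`). -/
structure SolK {ι : Type} (e : ι → E3 → E3) (σ : ι → ι) (s : ι → ℝ) (T : ℝ)
    (u : ℝ → E3 → E3) : Prop where
  reg : ∃ V : ℝ → Fam, (∀ t ∈ Ico 0 T, OT (V t) ∧ u t = fieldOf (V t)) ∧
    ∀ m : ℕ, ∀ T' < T, ∃ M, ∀ t ∈ Icc 0 T', ∀ k, ‖vec k‖ ^ m * ‖V t k‖ ≤ M
  eqn : ∀ i, ∀ t ∈ Ico 0 T, HasDerivWithinAt (fun τ => ip (u τ) (e i))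
    (s i * ip (u t) (e (σ i)) - cnv (u t) (e i)) (Ico 0 T) t

end Pool.Agent.Y6.K
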