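import Pool.Agent.Y6.K.Final

/-!
Finite-time blow-up for the three-dimensional periodic Euler equations with an additional linear
term `K u`, where `K` is skew-adjoint and commutes with the Laplacian (the nonlinearity is exactly
that of the Euler equations; `K` drops out of every `H^s` energy identity), from an explicit
trigonometric polynomial.
-/

open Set

namespace Pool.Agent.Y6.K.EnergyNeutralTerm

open Pool.Agent.Y5 Pool.Agent.Y5.D Pool.Agent.Y6.K

theorem result : ∃ (ι : Type) (e : ι → E3 → E3) (N : ι → ℝ) (σ : ι → ι) (s : ι → ℝ)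
    (T : ℝ) (u : ℝ → E3 → E3), Neutral e N σ s ∧ 0 < T ∧ T ≤ 30 ∧ SolK e σ s T u ∧ u 0 = u0 ∧
      (∀ (T' : ℝ) (v : ℝ → E3 → E3), 0 < T' → SolK e σ s T' v → v 0 = u0 →
        T' ≤ T ∧ ∀ t ∈ Ico 0 T', v t = u t) ∧
      (∀ t ∈ Ico 0 T, ip (u t) (u t) = ip u0 u0) ∧
      ∀ M : ℝ, ∃ t ∈ Ico 0 T, M < dir (u t) :=
  t_MAINK

end Pool.Agent.Y6.K.EnergyNeutralTerm
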