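import Pool.Agent.Y6.K.Main
import Pool.Agent.Y919.EK.CJ5

/-! The Euler equations with a skew-adjoint linear term commuting with the Laplacian. -/

set_option autoImplicit false

namespace Pool.Agent.Y6.K

theorem t_MAINK : S_MAINK := t_MAINK_of Pool.Agent.Y919.EK.t_CJ5

end Pool.Agent.Y6.K
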