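import Pool.Agent.Y6.K.Blow
import Pool.Agent.Y259.EK.UNI
import Pool.Agent.Y362.EK.DEC
import Pool.Agent.Y43.EK.AVG
import Pool.Agent.Y43.EK.CJ3
import Pool.Agent.Y620.EK.LIM
import Pool.Agent.Y710.EK.Boot
import Pool.Agent.Y79.EK.Cj4
import Pool.Agent.Y79.EK.Dat
import Pool.Agent.Y79.EK.SeqB
import Pool.Agent.Y809.EK.CJ1
import Pool.Agent.Y839.EK.Gal
import Pool.Agent.Y899.EK.Pers
import Pool.Agent.Y925.EK.Phys
import Pool.Agent.Y978.EK.CJ2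
import Pool.Agent.Y99.EK.LocRic
import Pool.Agent.Y691.ND.FLD

/-! Assembly: the Euler equations with a skew-adjoint linear term commuting with the Laplacian. -/

set_option autoImplicit false

namespace Pool.Agent.Y6.K

theorem t_BLOWK : S_BLOWK :=
  t_BLOWK_of Pool.Agent.Y839.EK.t_GAL Pool.Agent.Y362.EK.t_DEC
    (Pool.Agent.Y710.EK.t_BOOT Pool.Agent.Y43.EK.AVG.t_AVG Pool.Agent.Y362.EK.t_DEC)
    (Pool.Agent.Y620.EK.t_LIM Pool.Agent.Y362.EK.t_DEC) Pool.Agent.Y899.EK.t_PERS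
    t_LOC t_RIC Pool.Agent.Y79.EK.t_SEQB Pool.Agent.Y259.EK.t_UNI

theorem t_CONCK_of (h5 : S_CJ5) : S_CONCK := by
  have h1 : S_CJ1 := Pool.Agent.Y809.EK.t_CJ1
  have h2 : S_CJ2 := Pool.Agent.Y978.EK.t_CJ2 h1
  obtain ⟨J, o, σ, τ, N, e, hS⟩ := Pool.Agent.Y79.EK.Cj4.t_CJ4 h1 Pool.Agent.Y43.EK.CJ3.t_CJ3
  obtain ⟨hK, hW, hN⟩ := h5 h1 h2 J o σ τ N e hS
  exact ⟨J, o, σ, τ, N, e, hS.modes, hK, h2.2.2.1, hW, hS.main 0, hN⟩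

theorem t_MAINK_of (h5 : S_CJ5) : S_MAINK :=
  Pool.Agent.Y925.EK.t_PHYSK Pool.Agent.Y691.ND.t_FLD t_BLOWK (t_CONCK_of h5)
    Pool.Agent.Y79.EK.t_DAT

end Pool.Agent.Y6.K
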