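import Pool.Agent.Y302.Trunc.Main2

/-!
# Finite time blow-up for the Euler equations on `𝕋³` with a very sparse set of modes removed
-/

open MeasureTheory Set
open scoped ContDiff

namespace Pool.Agent.Y6.K.SparseTruncation

/-- The space `ℝ³`. -/
abbrev V := Fin 3 → ℝ

/-- `f` is `2π`-periodic in each of the three coordinates. -/
def Periodic3 {F : Type} (f : V → F) : Prop :=
  ∀ (i : Fin 3) (x : V), f (x + Pi.single i (2 * Real.pi)) = f x

/-- The partial derivative `∂ⱼ vᵢ (x)` of the vector field `v`. -/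
noncomputable def D (v : V → V) (x : V) (j i : Fin 3) : ℝ := fderiv ℝ v x (Pi.single j 1) i

/-- The torus `𝕋³ = [-π, π]³`. -/
def torus : Set V := Icc (fun _ => -Real.pi) (fun _ => Real.pi)

/-- `k · x`. -/
noncomputable def dot (k : Fin 3 → ℤ) (x : V) : ℝ := ∑ i, (k i : ℝ) * x i

/-- The Fourier coefficient of `g` at the frequency `k` vanishes. -/
def NoMode (k : Fin 3 → ℤ) (g : V → ℝ) : Prop :=
  ∫ x in torus, g x * Real.cos (dot k x) = 0 ∧ ∫ x in torus, g x * Real.sin (dot k x) = 0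

/-- `(u, p)` is a classical solution for the times in `I` of the incompressible Euler equations on
`𝕋³` with the Fourier modes in `R` removed: `u` and `p` are continuously differentiable in `(t, x)`
and `2π`-periodic in `x`, `div u = 0`, `u` has no Fourier modes in `R`, and
`∂ₜ uᵢ + ∑ⱼ uⱼ ∂ⱼ uᵢ + ∂ᵢ p` has no Fourier modes outside of `R`. -/
structure IsSolutionWithout (R : Set (Fin 3 → ℤ)) (I : Set ℝ) (u : ℝ → V → V) (p : ℝ → V → ℝ) :
    Prop where
  contDiffOn_u : ContDiffOn ℝ 1 (fun z : ℝ × V => u z.1 z.2) (I ×ˢ univ)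
  contDiffOn_p : ContDiffOn ℝ 1 (fun z : ℝ × V => p z.1 z.2) (I ×ˢ univ)
  periodic_u : ∀ t ∈ I, Periodic3 (u t)
  periodic_p : ∀ t ∈ I, Periodic3 (p t)
  div_free : ∀ t ∈ I, ∀ x, ∑ i, D (u t) x i i = 0
  modes : ∀ t ∈ I, ∀ k ∈ R, ∀ i, NoMode k (fun x => u t x i)
  momentum : ∀ t ∈ I, ∀ k ∉ R, ∀ i, NoMode k (fun x =>
    derivWithin (fun s => u s x i) I t + ∑ j, u t x j * D (u t) x j i
      + fderiv ℝ (p t) x (Pi.single i 1))

/-- The Euclidean norm `|ω(x)|` of the vorticity `ω = curl v`. -/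
noncomputable def vorticity (v : V → V) (x : V) : ℝ :=
  Real.sqrt ((D v x 1 2 - D v x 2 1) ^ 2 + (D v x 2 0 - D v x 0 2) ^ 2
    + (D v x 0 1 - D v x 1 0) ^ 2)

/-- The trigonometric polynomial with the `i`-th component, for `{i, j, k} = {1, 2, 3}`,
`3 sin(M xᵢ) (cos(M xⱼ) cos(3M xₖ) + cos(3M xⱼ) cos(M xₖ)) - 2 sin(3M xᵢ) cos(M xⱼ) cos(M xₖ)`. -/
noncomputable def datum (M : ℕ) (x : V) : V := fun i =>
  3 * Real.sin (M * x i) * (Real.cos (M * x (i + 1)) * Real.cos (3 * M * x (i + 2))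
      + Real.cos (3 * M * x (i + 1)) * Real.cos (M * x (i + 2)))
    - 2 * Real.sin (3 * M * x i) * Real.cos (M * x (i + 1)) * Real.cos (M * x (i + 2))

lemma iff_lib (R : Set (Fin 3 → ℤ)) (I : Set ℝ) (u : ℝ → V → V) (p : ℝ → V → ℝ) :
    IsSolutionWithout R I u p ↔ Pool.Agent.Y302.Trunc.IsSolutionWithout R I u p :=
  ⟨fun h => ⟨h.1, h.2, h.3, h.4, h.5, h.6, h.7⟩, fun h => ⟨h.1, h.2, h.3, h.4, h.5, h.6, h.7⟩⟩

lemma vort_lib (v : V → V) (x : V) : Pool.Agent.H708R2.EulerTypeI.nrm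
    (Pool.Agent.H708R2.EulerTypeI.vort v x) = vorticity v x := by
  have h : ∀ y : V, Pool.Agent.H708R2.EulerTypeI.nrm y
      = Real.sqrt (y 0 ^ 2 + y 1 ^ 2 + y 2 ^ 2) := by
    intro y
    unfold Pool.Agent.H708R2.EulerTypeI.nrm
    rw [dotProduct, Fin.sum_univ_three]
    congr 1
    ring
  rw [h]
  rfl

/-- The frequencies `k` whose squared length `|k|²` is in `S`. -/
def shells (S : Set ℕ) : Set (Fin 3 → ℤ) := {k | ∃ s ∈ S, ∑ i, k i ^ 2 = (s : ℤ)}

/-- For every `b` there are a set `R₀ = -R₀` of frequencies with at most `230400 (log N)²` elements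
in the cube `max |kᵢ| ≤ N` and a set `S` of integers `≥ 4 ^ b` with at most `230400 (log N)²`
elements `≤ N`, `R₀` being contained in the set of all `k` with `|k|² ∈ S`, and a field `u` on a
finite time interval `[0, T)`, smooth in `x`, with `∫ |ω| dx ≥ 39 / (T - t)` and the explicit
trigonometric polynomial `datum (2 ^ b)` as initial value, such that for every set `R` between `R₀`
and `{k : |k|² ∈ S}` the field `u` is a classical solution of the Euler equations on `𝕋³` with the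
modes in `R` removed, and it is unique and maximal among all classical solutions of these. -/
theorem result (b : ℕ) :
    ∃ (R₀ : Set (Fin 3 → ℤ)) (S : Set ℕ),
      (∀ k ∈ R₀, -k ∈ R₀) ∧ R₀ ⊆ shells S ∧ (∀ s ∈ S, 4 ^ b ≤ s) ∧
      (∀ N : ℕ, 2 ≤ N → ({k ∈ R₀ | ∀ i, |k i| ≤ N}.ncard : ℝ) ≤ 230400 * Real.log N ^ 2) ∧
      (∀ N : ℕ, 2 ≤ N → ({s ∈ S | s ≤ N}.ncard : ℝ) ≤ 230400 * Real.log N ^ 2) ∧
      ∃ (T : ℝ) (u : ℝ → V → V) (p : ℝ → V → ℝ),
        0 < T ∧ T ≤ 56 / 2 ^ b ∧ u 0 = datum (2 ^ b) ∧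
        (∀ t ∈ Ico 0 T, ContDiff ℝ ∞ (u t)) ∧
        (∀ t ∈ Ico 0 T, 39 / (T - t) ≤ ∫ x in torus, vorticity (u t) x) ∧
        ∀ R : Set (Fin 3 → ℤ), R₀ ⊆ R → R ⊆ shells S →
          IsSolutionWithout R (Ico 0 T) u p ∧
          ∀ (T' : ℝ) (w : ℝ → V → V) (q : ℝ → V → ℝ),
            IsSolutionWithout R (Ico 0 T') w q → w 0 = datum (2 ^ b) →
              T' ≤ T ∧ ∀ t ∈ Ico 0 T', w t = u t := by
  obtain ⟨R₀, S, h1, h2, h3, h4, h5, T, u, p, h6, h7, h8, h9, h10, h11⟩ :=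
    Pool.Agent.Y302.Trunc.main_iso b
  refine ⟨R₀, S, h1, h2, h3, h4, h5, T, u, p, h6, h7, h8, h9, fun t ht => ?_,
    fun R hR1 hR2 => ?_⟩
  · have h := h10 t ht
    simp only [vort_lib] at h
    exact h
  · obtain ⟨h12, h13⟩ := h11 R hR1 hR2
    exact ⟨(iff_lib R _ u p).2 h12, fun T' w q hw hw0 => h13 T' w q ((iff_lib R _ w q).1 hw) hw0⟩

end Pool.Agent.Y6.K.SparseTruncation
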